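import Pool.Agent.R820.SQ.Cover

/-!
# MP_f2a227_gt: `|X| ≤ 2 ^ (sqL(X) · χ(X))` fails for Hausdorff spaces

For every cardinal `μ` there is a Hausdorff space `X` with `sqL(X) = ℵ₀`,
`χ(X) ≤ 2 ^ (2 ^ ℵ₀)` and `|X| ≥ μ`.
-/

open Set Topology Cardinal

namespace Pool.Agent.Results.MP_f2a227_gt.Counterexample

/-- The property in the definition of the strict quasi-Lindelöf number: for every closed `F`, every
family `𝒰` of open sets covering `F` and every decomposition `U` of `𝒰` indexed by (a set of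
cardinality) `κ` there are `V i ⊆ U i` of cardinality at most `κ` such that `F` is contained in the
union of the closures of the `⋃ V i`. -/
def SQ (X : Type) [TopologicalSpace X] (κ : Cardinal.{0}) : Prop :=
  ∀ (F : Set X) (𝒰 : Set (Set X)) (U : κ.out → Set (Set X)), IsClosed F →
    (∀ V ∈ 𝒰, IsOpen V) → F ⊆ ⋃₀ 𝒰 → ⋃ i, U i = 𝒰 →
    ∃ V : κ.out → Set (Set X), (∀ i, V i ⊆ U i ∧ #(V i) ≤ κ) ∧
      F ⊆ ⋃ i, closure (⋃₀ (V i))

/-- The strict quasi-Lindelöf number. -/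
noncomputable def sqL (X : Type) [TopologicalSpace X] : Cardinal.{0} :=
  sInf {κ | ℵ₀ ≤ κ ∧ SQ X κ}

/-- Local bases. -/
def IsLocalBase {X : Type} [TopologicalSpace X] (x : X) (B : Set (Set X)) : Prop :=
  (∀ V ∈ B, IsOpen V ∧ x ∈ V) ∧ ∀ W ∈ 𝓝 x, ∃ V ∈ B, V ⊆ W

/-- The character (with infinite values). -/
noncomputable def chi (X : Type) [TopologicalSpace X] : Cardinal.{0} :=
  max ℵ₀ (⨆ x : X, sInf {c | ∃ B : Set (Set X), IsLocalBase x B ∧ #B = c})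

open Pool.Agent.R820.SQ

theorem SQ_P (Y₀ : Type) : SQ (P Y₀) ℵ₀ := by
  intro F 𝒰 U hF hUo hcov hdec
  have : Countable (ℵ₀ : Cardinal.{0}).out := by
    rw [← Cardinal.mk_le_aleph0_iff]
    simp
  obtain ⟨V, hV, hV'⟩ := covering hF U
    (fun i W hW => hUo W (by rw [← hdec]; exact mem_iUnion.2 ⟨i, hW⟩)) (by
      intro x hx
      obtain ⟨W, hW, hxW⟩ := hcov hx
      rw [← hdec] at hW
      obtain ⟨i, hi⟩ := mem_iUnion.1 hW
      exact mem_iUnion.2 ⟨i, W, hi, hxW⟩)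
  exact ⟨V, fun i => ⟨(hV i).1, (hV i).2.le_aleph0⟩, hV'⟩

theorem sqL_P (Y₀ : Type) : sqL (P Y₀) = ℵ₀ := by
  apply le_antisymm
  · exact csInf_le' ⟨le_rfl, SQ_P Y₀⟩
  · exact le_csInf ⟨ℵ₀, le_rfl, SQ_P Y₀⟩ (fun κ hκ => hκ.1)

theorem chi_P (Y₀ : Type) : chi (P Y₀) ≤ 2 ^ ((2 : Cardinal.{0}) ^ (ℵ₀ : Cardinal.{0})) := by
  refine max_le ((Cardinal.cantor ℵ₀).le.trans (Cardinal.cantor _).le) ?_
  refine ciSup_le' (fun x => ?_)
  obtain ⟨B, hB, hB1, hB2⟩ := exists_base x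
  have h1 : sInf {c | ∃ B : Set (Set (P Y₀)), IsLocalBase x B ∧ #B = c} ≤ #B :=
    csInf_le' ⟨B, ⟨hB1, hB2⟩, rfl⟩
  exact h1.trans (hB.trans mk_index)

theorem mk_P (Y₀ : Type) : #Y₀ ≤ #(P Y₀) := by
  refine Cardinal.mk_le_of_injective (f := fun y => (⟨T.pt y, trivial⟩ : P Y₀)) ?_
  intro y y' h
  have h1 : T.pt y = T.pt y' := congrArg Subtype.val h
  simpa using h1

/-- **Main result.** (1) For every cardinal `μ` there is a Hausdorff space `X` with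
`sqL(X) = ℵ₀`, `χ(X) ≤ 2 ^ (2 ^ ℵ₀)` and `|X| ≥ μ`. (2) Hence there is a Hausdorff space `X` with
`|X| > 2 ^ (sqL(X) · χ(X))`. -/
theorem result :
    (∀ μ : Cardinal.{0}, ∃ (X : Type) (_ : TopologicalSpace X), T2Space X ∧ sqL X = ℵ₀ ∧
      chi X ≤ 2 ^ ((2 : Cardinal.{0}) ^ (ℵ₀ : Cardinal.{0})) ∧ μ ≤ #X) ∧
    ∃ (X : Type) (_ : TopologicalSpace X), T2Space X ∧ 2 ^ (sqL X * chi X) < #X := by
  have h1 : ∀ μ : Cardinal.{0}, ∃ (X : Type) (_ : TopologicalSpace X), T2Space X ∧ sqL X = ℵ₀ ∧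
      chi X ≤ 2 ^ ((2 : Cardinal.{0}) ^ (ℵ₀ : Cardinal.{0})) ∧ μ ≤ #X := by
    intro μ
    refine ⟨P μ.out, inferInstance, inferInstance, sqL_P _, chi_P _, ?_⟩
    have := mk_P μ.out
    rwa [Cardinal.mk_out] at this
  refine ⟨h1, ?_⟩
  obtain ⟨X, hX, hT2, hsq, hchi, hmu⟩ :=
    h1 ((2 : Cardinal.{0}) ^ ((2 : Cardinal.{0}) ^
      ((2 : Cardinal.{0}) ^ ((2 : Cardinal.{0}) ^ (ℵ₀ : Cardinal.{0})))))
  refine ⟨X, hX, hT2, ?_⟩
  refine lt_of_lt_of_le ?_ hmu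
  have h0 : ℵ₀ ≤ 2 ^ ((2 : Cardinal.{0}) ^ (ℵ₀ : Cardinal.{0})) :=
    (Cardinal.cantor ℵ₀).le.trans (Cardinal.cantor _).le
  have h2 : sqL X * chi X ≤ 2 ^ ((2 : Cardinal.{0}) ^ (ℵ₀ : Cardinal.{0})) := by
    rw [hsq]
    exact Cardinal.mul_le_of_le h0 h0 hchi
  exact lt_of_le_of_lt (Cardinal.power_le_power_left two_ne_zero h2) (Cardinal.cantor _)

end Pool.Agent.Results.MP_f2a227_gt.Counterexample
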